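import Pool.Agent.AllNet.Cells

/-!
# The 24-cell, the 120-cell and the 600-cell are not all-net
-/

namespace Pool.Agent.Results.MP_6fbbc1_co.NotAllNet

open Pool.Agent.Unfold

/-- None of the regular 24-cell, 120-cell and 600-cell is all-net: each of them has a ridge
unfolding in which the relative interiors of the images of two distinct facets overlap. -/
theorem result : ¬ AllNet cell24 ∧ ¬ AllNet cell120 ∧ ¬ AllNet cell600 := by
  refine ⟨?_, ?_, ?_⟩
  · rw [cell24_eq]
    exact not_allNet_of_check check24
  · rw [cell120_eq]
    exact not_allNet_of_check check120
  · rw [cell600_eq]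
    exact not_allNet_of_check check600

end Pool.Agent.Results.MP_6fbbc1_co.NotAllNet
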